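import Pool.Agent.Helper70.OB.Goals2

/-!
# Packet OB-REPF: the measure when the support is a finite union of spheres
-/

open MeasureTheory Set Metric Filter
open scoped ENNReal Topology
open Pool.Agent.Results.MP_91ee6f_gt
open Pool.Agent.Helper70.MM (fSPH1 fSPH2)
open Pool.Agent.Helper70.OB

namespace Pool.Agent.Helper40.OB

lemma isol (S : Set ℝ) (hS : S.Finite) (a : ℝ) : ∃ δ > 0, ∀ s ∈ S, |s - a| < δ → s = a := by
  have h1 : (S \ {a})ᶜ ∈ 𝓝 a :=
    (hS.subset sdiff_subset).isClosed.isOpen_compl.mem_nhds (by simp)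
  obtain ⟨δ, hδ, h2⟩ := Metric.mem_nhds_iff.1 h1
  refine ⟨δ, hδ, fun s hs hd => ?_⟩
  by_contra hne
  exact h2 (show s ∈ ball a δ by rwa [mem_ball, Real.dist_eq]) ⟨hs, hne⟩

lemma sphere_pos {n : ℕ} (τ : Measure (En n)) (S : Set ℝ) (hS : S.Finite)
    (hsup : τ.support = {x : En n | ‖x‖ ∈ S}) (x : En n) (hx : ‖x‖ ∈ S) :
    0 < τ (sphere 0 ‖x‖) := by
  obtain ⟨δ, hδ, hiso⟩ := isol S hS ‖x‖
  have hxs : x ∈ τ.support := by rw [hsup]; exact hx
  have hU : {y : En n | |‖y‖ - ‖x‖| < δ} ∈ 𝓝 x := by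
    refine IsOpen.mem_nhds ?_ ?_
    · exact isOpen_lt (by fun_prop) continuous_const
    · simpa using hδ
  have hpos : 0 < τ {y : En n | |‖y‖ - ‖x‖| < δ} :=
    (Measure.mem_support_iff_forall x).1 hxs _ hU
  have hsub : {y : En n | |‖y‖ - ‖x‖| < δ} ⊆ sphere 0 ‖x‖ ∪ τ.supportᶜ := by
    intro y hy
    by_cases hys : y ∈ τ.support
    · left
      rw [hsup] at hys
      have := hiso ‖y‖ hys hy
      rw [mem_sphere_zero_iff_norm]
      exact this
    · right
      exact hys
  refine lt_of_lt_of_le hpos ((measure_mono hsub).trans ((measure_union_le _ _).trans ?_))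
  rw [Measure.measure_compl_support, add_zero]

lemma unif_ball {n : ℕ} (hn : 1 ≤ n) {s t : ℝ} (hs : 0 ≤ s) :
    sphUnif n s (ball 0 t) = if s < t then 1 else 0 := by
  obtain ⟨hp, hae, -⟩ := fSPH1 n hn s
  have h1 := hae hs
  split_ifs with h
  · have h2 : ∀ᵐ y ∂(sphUnif n s), y ∈ ball (0 : En n) t := by
      filter_upwards [h1] with y hy
      rw [mem_ball_zero_iff, hy]
      exact h
    exact (prob_compl_eq_zero_iff measurableSet_ball).1 (mem_ae_iff.1 h2)
  · have h2 : ∀ᵐ y ∂(sphUnif n s), ¬ y ∈ ball (0 : En n) t := by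
      filter_upwards [h1] with y hy
      rw [mem_ball_zero_iff, hy]
      exact h
    have h3 := ae_iff.1 h2
    exact le_antisymm (le_trans (measure_mono (fun y hy => not_not.2 hy)) h3.le) bot_le

theorem repf (hR : ROTD) : REPF := by
  intro n hn τ S R hfin hrot hR0 hRS hSR hSf hsup hzero
  have hn1 : 1 ≤ n := by omega
  have := hfin
  -- zero is not in S
  have h0S : (0 : ℝ) ∉ S := by
    intro h0
    have h1 := sphere_pos τ S hSf hsup (0 : En n) (by rw [norm_zero]; exact h0)
    rw [norm_zero, sphere_zero, hzero] at h1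
    exact lt_irrefl _ h1
  have hSpos : ∀ s ∈ S, 0 < s := fun s hs =>
    lt_of_le_of_ne (hSR hs).1 (fun h => h0S (h ▸ hs))
  -- enumeration
  obtain ⟨N, hN⟩ : ∃ N : ℕ, hSf.toFinset.card = N + 1 := by
    have : 0 < hSf.toFinset.card := Finset.card_pos.2 ⟨R, hSf.mem_toFinset.2 hRS⟩
    exact ⟨hSf.toFinset.card - 1, by omega⟩
  let r : Fin (N + 1) → ℝ := fun i => hSf.toFinset.orderEmbOfFin hN (Fin.rev i)
  have hranti : StrictAnti r := by
    intro i j hij
    exact (hSf.toFinset.orderEmbOfFin hN).strictMono (Fin.rev_lt_rev.2 hij)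
  have hrmem : ∀ i, r i ∈ S := fun i =>
    hSf.mem_toFinset.1 (Finset.orderEmbOfFin_mem _ hN _)
  have hrsur : ∀ s ∈ S, ∃ i, r i = s := by
    intro s hs
    have h1 : s ∈ Set.range (hSf.toFinset.orderEmbOfFin hN) := by
      rw [Finset.range_orderEmbOfFin]
      exact hSf.mem_toFinset.2 hs
    obtain ⟨j, hj⟩ := h1
    exact ⟨Fin.rev j, by simp only [r, Fin.rev_rev]; exact hj⟩
  have hr0 : r 0 = R := by
    obtain ⟨i, hi⟩ := hrsur R hRS
    have h1 : r i ≤ r 0 := hranti.antitone (Fin.zero_le i)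
    exact le_antisymm (hSR (hrmem 0)).2 (hi ▸ h1)
  have hrpos : ∀ i, 0 < r i := fun i => hSpos _ (hrmem i)
  have : Nontrivial (En n) := by
    refine ⟨⟨EuclideanSpace.single (⟨0, hn1⟩ : Fin n) (1 : ℝ), 0, ?_⟩⟩
    intro h
    have := congrArg norm h
    simp at this
  have hmpos : ∀ i, 0 < τ.real (sphere 0 (r i)) := by
    intro i
    obtain ⟨x, hx⟩ := exists_norm_eq (En n) (hrpos i).le
    have h1 := sphere_pos τ S hSf hsup x (by rw [hx]; exact hrmem i)
    rw [hx] at h1
    exact ENNReal.toReal_pos h1.ne' (measure_ne_top _ _)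
  set w : Measure (En n) :=
    ∑ i, ENNReal.ofReal (τ.real (sphere 0 (r i))) • sphUnif n (r i) with hw
  have hwapp : ∀ A : Set (En n), w A = ∑ i, τ (sphere 0 (r i)) * sphUnif n (r i) A := by
    intro A
    rw [hw, Measure.finsetSum_apply]
    refine Finset.sum_congr rfl fun i _ => ?_
    rw [Measure.smul_apply, smul_eq_mul, ofReal_measureReal]
  have hprob : ∀ i, IsProbabilityMeasure (sphUnif n (r i)) := fun i => (fSPH1 n hn1 (r i)).1
  have hwfin : IsFiniteMeasure w := by
    refine ⟨?_⟩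
    rw [hwapp]
    refine ENNReal.sum_lt_top.2 fun i _ => ?_
    rw [measure_univ, mul_one]
    exact measure_lt_top _ _
  have hwrot : Rot w := by
    intro g
    ext A hA
    rw [Measure.map_apply g.continuous.measurable hA, hwapp, hwapp]
    refine Finset.sum_congr rfl fun i _ => ?_
    have h1 := (fSPH2 n (r i)).1 g
    have h2 : (sphUnif n (r i)).map g A = sphUnif n (r i) (g ⁻¹' A) :=
      Measure.map_apply g.continuous.measurable hA
    rw [← h2, h1]
  have hball : ∀ t : ℝ, 0 < t → τ (ball 0 t) = w (ball 0 t) := by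
    intro t ht
    have e1 : τ (ball 0 t) = τ (⋃ i ∈ Finset.univ.filter (fun i => r i < t), sphere 0 (r i)) := by
      refine measure_congr (Filter.eventuallyEq_set.2 ?_)
      filter_upwards [(Measure.support_mem_ae : τ.support ∈ ae τ)] with x hx
      rw [hsup] at hx
      obtain ⟨i, hi⟩ := hrsur _ hx
      rw [mem_ball_zero_iff]
      simp only [Finset.mem_filter, Finset.mem_univ, true_and, mem_iUnion,
        mem_sphere_zero_iff_norm, exists_prop]
      constructor
      · intro h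
        exact ⟨i, by rw [hi]; exact h, hi.symm⟩
      · rintro ⟨j, hj1, hj2⟩
        rw [hj2]
        exact hj1
    rw [e1, measure_biUnion_finset]
    · rw [hwapp, Finset.sum_filter]
      refine Finset.sum_congr rfl fun i _ => ?_
      rw [unif_ball hn1 (hrpos i).le]
      split_ifs <;> simp
    · intro i _ j _ hij
      refine Set.disjoint_left.2 fun x hx hx' => hij (hranti.injective ?_)
      rw [mem_sphere_zero_iff_norm] at hx hx'
      rw [← hx, ← hx']
    · intro i _
      exact isClosed_sphere.measurableSet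
  have hfinal : τ = w := hR n hn1 τ w hfin hwfin hrot hwrot hball
  refine ⟨N, r, fun i => τ.real (sphere 0 (r i)), hranti, hr0, hrpos, hmpos, hfinal, ?_⟩
  rw [hsup]
  ext x
  simp only [mem_ofPred_eq, mem_iUnion, mem_sphere_zero_iff_norm]
  constructor
  · intro hx
    obtain ⟨i, hi⟩ := hrsur _ hx
    exact ⟨i, hi.symm⟩
  · rintro ⟨i, hi⟩
    rw [hi]
    exact hrmem i

end Pool.Agent.Helper40.OB
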